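import Mathlib
import Pool.Agent.LeoK.CountStmts

/-!
# Module ROT: a real cubic form as the imaginary part of the cube of a complex linear form
-/

set_option autoImplicit false

open Module MeasureTheory

namespace Pool.Agent.LeoK.H41

/-- ROT. -/
theorem rot : RotStmt := by
  intro v hP hM
  set a := v 0 with ha
  set b := v 1 with hb
  set c := v 2 with hc
  set d := v 3 with hd
  have hPdef : qP v = b ^ 2 - a * c := rfl
  have hMdef : qM v = 4 * (b ^ 2 - a * c) * (c ^ 2 - b * d) - (b * c - a * d) ^ 2 := rfl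
  set P := qP v with hPP
  set M := qM v with hMM
  obtain ⟨p, hp0, hpP⟩ : ∃ p : ℝ, 0 < p ∧ p ^ 2 = P :=
    ⟨Real.sqrt P, Real.sqrt_pos.mpr hP, Real.sq_sqrt hP.le⟩
  obtain ⟨q, hq0, hqM, hqr, hq4⟩ : ∃ q : ℝ, 0 < q ∧ q ^ 4 = M ∧ Real.sqrt M = q ^ 2 ∧
      M ^ (1 / 4 : ℝ) = q := by
    refine ⟨M ^ (1 / 4 : ℝ), Real.rpow_pos_of_pos hM _, ?_, ?_, rfl⟩
    · rw [← Real.rpow_natCast, ← Real.rpow_mul hM.le]
      norm_num
    · rw [Real.sqrt_eq_rpow, ← Real.rpow_natCast, ← Real.rpow_mul hM.le]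
      norm_num
  set Q : ℝ := b * c - a * d with hQ
  set G0 : ℝ := 2 * b ^ 3 - 3 * a * b * c + a ^ 2 * d with hG
  have hcov : G0 ^ 2 + a ^ 2 * M = 4 * P ^ 3 := by
    rw [hMdef, hPdef, hG, hQ]; ring
  -- the unit number
  obtain ⟨u, hu⟩ : ∃ u : ℂ, u ^ 3 = ⟨G0 / (2 * p ^ 3), q ^ 2 * a / (2 * p ^ 3)⟩ :=
    IsAlgClosed.exists_pow_nat_eq _ (by norm_num)
  have hu1 : Complex.normSq u = 1 := by
    have h1 : Complex.normSq u ^ 3 = 1 := by
      rw [← map_pow, hu, Complex.normSq_mk]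
      have hp6 : p ^ 6 = P ^ 3 := by rw [← hpP]; ring
      field_simp
      nlinarith [hcov, hp6, hqM]
    have h2 : 0 ≤ Complex.normSq u := Complex.normSq_nonneg u
    exact (pow_eq_one_iff_of_nonneg h2 (by norm_num)).1 h1
  have hre : u.re * u.re + u.im * u.im = 1 := by
    rw [← Complex.normSq_apply]; exact hu1
  have hpq : p * q ≠ 0 := (mul_pos hp0 hq0).ne'
  refine ⟨u * (p / q : ℝ), u * ⟨Q / (2 * p * q), q / (2 * p)⟩, ?_, ?_⟩
  · have : (starRingEnd ℂ (u * ((p / q : ℝ) : ℂ)) * (u * ⟨Q / (2 * p * q), q / (2 * p)⟩)).im =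
        (u.re * u.re + u.im * u.im) * (1 / 2) := by
      simp only [map_mul, Complex.conj_ofReal, Complex.mul_im, Complex.mul_re, Complex.conj_re,
        Complex.conj_im, Complex.ofReal_re, Complex.ofReal_im]
      field_simp
      ring
    rw [this, hre]
    norm_num
  · intro X Y
    have hlin : (X : ℂ) * (u * ((p / q : ℝ) : ℂ)) + (Y : ℂ) * (u * ⟨Q / (2 * p * q), q / (2 * p)⟩) =
        u * ⟨(2 * p ^ 2 * X + Q * Y) / (2 * p * q), q * Y / (2 * p)⟩ := by
      have h2 : (X : ℂ) * ((p / q : ℝ) : ℂ) + (Y : ℂ) * ⟨Q / (2 * p * q), q / (2 * p)⟩ =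
          ⟨(2 * p ^ 2 * X + Q * Y) / (2 * p * q), q * Y / (2 * p)⟩ := by
        apply Complex.ext
        · simp only [Complex.add_re, Complex.mul_re, Complex.ofReal_re, Complex.ofReal_im]
          field_simp
          ring
        · simp only [Complex.add_im, Complex.mul_im, Complex.ofReal_re, Complex.ofReal_im]
          field_simp
          ring
      rw [← h2]; ring
    rw [hlin]
    have hes_eq : hes v X Y = P * X ^ 2 + Q * X * Y + (c ^ 2 - b * d) * Y ^ 2 := rfl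
    have val_eq : val v X Y = a * X ^ 3 + 3 * b * X ^ 2 * Y + 3 * c * X * Y ^ 2 + d * Y ^ 3 := rfl
    constructor
    · rw [hqr, Complex.sq_norm, Complex.normSq_mul, hu1, one_mul, Complex.normSq_mk, hes_eq]
      field_simp
      have h4 : q ^ 4 = 4 * P * (c ^ 2 - b * d) - Q ^ 2 := by rw [hqM, hMdef, hPdef]
      rw [← hpP] at h4 ⊢
      linear_combination Y ^ 2 * h4
    · rw [hq4, mul_pow, hu, val_eq]
      have h4 : q ^ 4 = 4 * P * (c ^ 2 - b * d) - Q ^ 2 := by rw [hqM, hMdef, hPdef]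
      have hcube : ((⟨(2 * p ^ 2 * X + Q * Y) / (2 * p * q), q * Y / (2 * p)⟩ : ℂ) ^ 3) =
          ⟨((2 * p ^ 2 * X + Q * Y) / (2 * p * q)) ^ 3 -
            3 * ((2 * p ^ 2 * X + Q * Y) / (2 * p * q)) * (q * Y / (2 * p)) ^ 2,
            3 * ((2 * p ^ 2 * X + Q * Y) / (2 * p * q)) ^ 2 * (q * Y / (2 * p)) -
              (q * Y / (2 * p)) ^ 3⟩ := by
        apply Complex.ext
        · simp only [pow_succ, pow_zero, one_mul, Complex.mul_re, Complex.mul_im]
          ring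
        · simp only [pow_succ, pow_zero, one_mul, Complex.mul_re, Complex.mul_im]
          ring
      rw [hcube, Complex.mul_im]
      dsimp only
      have key : G0 * (3 * (2 * p ^ 2 * X + Q * Y) ^ 2 * Y - q ^ 4 * Y ^ 3) +
          a * ((2 * p ^ 2 * X + Q * Y) ^ 3 - 3 * (2 * p ^ 2 * X + Q * Y) * q ^ 4 * Y ^ 2) =
          8 * P ^ 3 * (a * X ^ 3 + 3 * b * X ^ 2 * Y + 3 * c * X * Y ^ 2 + d * Y ^ 3) := by
        rw [hpP, hqM, hMdef, hPdef, hG, hQ]
        ring
      have hP3 : P ^ 3 = p ^ 6 := by rw [← hpP]; ring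
      rw [hP3] at key
      field_simp
      linear_combination key

end Pool.Agent.LeoK.H41
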