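import Mathlib
import Pool.Agent.LeoK.CountStmts

/-!
# Module VOD: volume of the region of the marks
-/

set_option autoImplicit false

open Module MeasureTheory NumberField Filter Topology

namespace Pool.Agent.LeoK.H41

/-! ## One place -/

/-- The image of the Lebesgue measure of `ℂ` under `w ↦ |w|²`. -/
theorem map_sq : Measure.map (fun w : ℂ => ‖w‖ ^ 2) (volume : Measure ℂ) =
    NNReal.pi • (volume : Measure ℝ).restrict (Set.Ioi 0) := by
  symm
  have hcont : Continuous (fun w : ℂ => ‖w‖ ^ 2) := by fun_prop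
  have hF : ∀ b : ℝ, volume ((fun w : ℂ => ‖w‖ ^ 2) ⁻¹' Set.Iic b) =
      NNReal.pi * ENNReal.ofReal b := by
    intro b
    rcases lt_or_ge b 0 with hb | hb
    · have h1 : (fun w : ℂ => ‖w‖ ^ 2) ⁻¹' Set.Iic b = ∅ := by
        apply Set.eq_empty_of_forall_notMem
        intro w hw
        have h2 : ‖w‖ ^ 2 ≤ b := hw
        have h3 : 0 ≤ ‖w‖ ^ 2 := by positivity
        linarith
      rw [h1, measure_empty, ENNReal.ofReal_of_nonpos hb.le, mul_zero]
    · have h1 : (fun w : ℂ => ‖w‖ ^ 2) ⁻¹' Set.Iic b = Metric.closedBall 0 (Real.sqrt b) := by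
        ext w
        simp only [Set.mem_preimage, Set.mem_Iic, mem_closedBall_zero_iff]
        exact (Real.le_sqrt (norm_nonneg w) hb).symm
      rw [h1, Complex.volume_closedBall, ← ENNReal.ofReal_pow (Real.sqrt_nonneg b),
        Real.sq_sqrt hb, mul_comm]
  apply Measure.ext_of_Ioc
  intro a b hab
  rw [Measure.map_apply hcont.measurable measurableSet_Ioc]
  have h1 : (fun w : ℂ => ‖w‖ ^ 2) ⁻¹' Set.Ioc a b =
      ((fun w : ℂ => ‖w‖ ^ 2) ⁻¹' Set.Iic b) \ ((fun w : ℂ => ‖w‖ ^ 2) ⁻¹' Set.Iic a) := by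
    ext w
    simp only [Set.mem_preimage, Set.mem_Ioc, Set.mem_sdiff, Set.mem_Iic, not_le]
    tauto
  have hfin : ∀ x : ℝ, volume ((fun w : ℂ => ‖w‖ ^ 2) ⁻¹' Set.Iic x) ≠ ⊤ := by
    intro x
    rw [hF]
    exact ENNReal.mul_ne_top ENNReal.coe_ne_top ENNReal.ofReal_ne_top
  rw [h1, measure_sdiff (Set.preimage_mono (Set.Iic_subset_Iic.2 hab.le))
    (measurableSet_Iic.preimage hcont.measurable).nullMeasurableSet (hfin a), hF, hF]
  rw [Measure.smul_apply, Measure.restrict_apply measurableSet_Ioc]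
  have h2 : Set.Ioc a b ∩ Set.Ioi 0 = Set.Ioc (max a 0) b := by
    ext x
    simp only [Set.mem_inter_iff, Set.mem_Ioc, Set.mem_Ioi, max_lt_iff]
    tauto
  rw [h2, Real.volume_Ioc, ENNReal.ofReal_sub _ (le_max_right a 0)]
  have h3 : ENNReal.ofReal (max a 0) = ENNReal.ofReal a := by
    rcases le_total a 0 with ha | ha
    · rw [max_eq_right ha, ENNReal.ofReal_of_nonpos ha, ENNReal.ofReal_zero]
    · rw [max_eq_left ha]
  rw [h3, ENNReal.smul_def, smul_eq_mul, ENNReal.mul_sub]
  intro _ _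
  exact ENNReal.coe_ne_top

/-- The zero set of `Im z³` is a null set. -/
theorem null_im : volume {z : ℂ | (z ^ 3).im = 0} = 0 := by
  let f : ℝ → ℂ →ₗ[ℝ] ℝ := fun c => Complex.imLm - c • Complex.reLm
  have hf : ∀ c z, f c z = z.im - c * z.re := fun c z => rfl
  have hker : ∀ c, volume ((LinearMap.ker (f c) : Submodule ℝ ℂ) : Set ℂ) = 0 := by
    intro c
    apply Measure.addHaar_submodule
    intro h
    have h1 : Complex.I ∈ LinearMap.ker (f c) := by rw [h]; exact Submodule.mem_top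
    rw [LinearMap.mem_ker, hf] at h1
    simp at h1
  have hsub : {z : ℂ | (z ^ 3).im = 0} ⊆ ((LinearMap.ker (f 0) : Submodule ℝ ℂ) : Set ℂ) ∪
      (((LinearMap.ker (f (Real.sqrt 3)) : Submodule ℝ ℂ) : Set ℂ) ∪
      ((LinearMap.ker (f (-Real.sqrt 3)) : Submodule ℝ ℂ) : Set ℂ)) := by
    intro z hz
    have h1 : (z ^ 3).im = z.im * ((Real.sqrt 3 * z.re - z.im) * (Real.sqrt 3 * z.re + z.im)) := by
      have h3 : Real.sqrt 3 ^ 2 = 3 := Real.sq_sqrt (by norm_num)
      simp only [pow_succ, pow_zero, one_mul, Complex.mul_im, Complex.mul_re]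
      linear_combination (- z.im * z.re ^ 2) * h3
    have h2 : z.im * ((Real.sqrt 3 * z.re - z.im) * (Real.sqrt 3 * z.re + z.im)) = 0 := by
      rw [← h1]; exact hz
    rcases mul_eq_zero.1 h2 with h | h
    · left
      change f 0 z = 0
      rw [hf, h]; ring
    · right
      rcases mul_eq_zero.1 h with h | h
      · left
        change f _ z = 0
        rw [hf]; linarith
      · right
        change f _ z = 0
        rw [hf]; linarith
  refine measure_mono_null hsub ?_
  rw [measure_union_null_iff, measure_union_null_iff]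
  exact ⟨hker _, hker _, hker _⟩

/-! ## All places -/

section Places

variable {σ : Type} [Fintype σ]

/-- The image of the Lebesgue measure under the squares of the absolute values. -/
theorem map_sq_pi : Measure.map (fun (w : σ → ℂ) (s : σ) => ‖w s‖ ^ 2) volume =
    (NNReal.pi ^ Fintype.card σ) •
      (volume : Measure (σ → ℝ)).restrict (Set.univ.pi fun _ => Set.Ioi 0) := by
  have hcont : Continuous (fun w : ℂ => ‖w‖ ^ 2) := by fun_prop
  have hsf : SigmaFinite (Measure.map (fun w : ℂ => ‖w‖ ^ 2) (volume : Measure ℂ)) := by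
    rw [map_sq]
    infer_instance
  have h1 := Measure.pi_map_pi (ι := σ) (X := fun _ => ℂ) (Y := fun _ => ℝ)
    (μ := fun _ => (volume : Measure ℂ)) (f := fun _ (w : ℂ) => ‖w‖ ^ 2) (hμ := fun _ => hsf)
    (fun _ => hcont.measurable.aemeasurable)
  rw [volume_pi, h1]
  refine @Measure.pi_eq σ (fun _ => ℝ) _ _ _ (fun _ => hsf) _ ?_
  intro t ht
  rw [Measure.smul_apply, Measure.restrict_apply (MeasurableSet.univ_pi ht), ← Set.pi_inter_distrib,
    volume_pi_pi]
  simp only [map_sq, Measure.smul_apply]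
  rw [ENNReal.smul_def, smul_eq_mul, ENNReal.coe_pow, Fintype.card, ← Finset.prod_const,
    ← Finset.prod_mul_distrib]
  apply Finset.prod_congr rfl
  intro i _
  rw [Measure.restrict_apply (ht i), ENNReal.smul_def, smul_eq_mul]

/-- Volumes of sets defined by the squares of the absolute values. -/
theorem vol_sq (A : Set (σ → ℝ)) (hA : MeasurableSet A) (hpos : ∀ x ∈ A, ∀ s, 0 < x s) :
    volume ((fun (w : σ → ℂ) (s : σ) => ‖w s‖ ^ 2) ⁻¹' A) =
      (NNReal.pi : ENNReal) ^ Fintype.card σ * volume A := by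
  have hcont : Continuous (fun (w : σ → ℂ) (s : σ) => ‖w s‖ ^ 2) := by fun_prop
  rw [← Measure.map_apply hcont.measurable hA, map_sq_pi, Measure.smul_apply,
    Measure.restrict_apply hA]
  have h1 : A ∩ (Set.univ.pi fun _ => Set.Ioi (0 : ℝ)) = A := by
    apply Set.inter_eq_left.2
    intro x hx s _
    exact hpos x hx s
  rw [h1, ENNReal.smul_def, smul_eq_mul, ENNReal.coe_pow]

/-- The union of the regions. -/
theorem tendsto_vol (A : Set (σ → ℝ)) (hA : MeasurableSet A) (hpos : ∀ x ∈ A, ∀ s, 0 < x s) :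
    Tendsto (fun j : ℕ => volume {w : σ → ℂ | (fun s => ‖w s‖ ^ 2) ∈ A ∧
      ∀ s, 1 / ((j : ℝ) + 1) < |((w s) ^ 3).im|}) atTop
      (𝓝 ((NNReal.pi : ENNReal) ^ Fintype.card σ * volume A)) := by
  set E : ℕ → Set (σ → ℂ) := fun j => {w : σ → ℂ | (fun s => ‖w s‖ ^ 2) ∈ A ∧
      ∀ s, 1 / ((j : ℝ) + 1) < |((w s) ^ 3).im|} with hE
  have hmono : Monotone E := by
    intro i j hij w hw
    refine ⟨hw.1, fun s => lt_of_le_of_lt ?_ (hw.2 s)⟩
    have : (i : ℝ) ≤ j := by exact_mod_cast hij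
    have hi : (0 : ℝ) ≤ i := Nat.cast_nonneg i
    exact one_div_le_one_div_of_le (by linarith) (by linarith)
  have h1 := tendsto_measure_iUnion_atTop (μ := (volume : Measure (σ → ℂ))) hmono
  have h2 : volume (⋃ j, E j) = (NNReal.pi : ENNReal) ^ Fintype.card σ * volume A := by
    rw [← vol_sq A hA hpos]
    apply le_antisymm
    · apply measure_mono
      intro w hw
      obtain ⟨j, hj⟩ := Set.mem_iUnion.1 hw
      exact hj.1
    · have h3 : (fun (w : σ → ℂ) (s : σ) => ‖w s‖ ^ 2) ⁻¹' A ⊆ (⋃ j, E j) ∪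
          ⋃ s : σ, Function.eval s ⁻¹' {z : ℂ | (z ^ 3).im = 0} := by
        intro w hw
        by_cases hs : ∃ s, ((w s) ^ 3).im = 0
        · right
          obtain ⟨s, hs⟩ := hs
          exact Set.mem_iUnion.2 ⟨s, hs⟩
        · left
          push Not at hs
          have h4 : ∀ s : σ, ∃ j : ℕ, 1 / ((j : ℝ) + 1) < |((w s) ^ 3).im| := fun s =>
            exists_nat_one_div_lt (abs_pos.2 (hs s))
          choose J hJ using h4
          refine Set.mem_iUnion.2 ⟨Finset.univ.sup J, hw, fun s => lt_of_le_of_lt ?_ (hJ s)⟩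
          have h5 : J s ≤ Finset.univ.sup J := Finset.le_sup (Finset.mem_univ s)
          have h6 : (J s : ℝ) ≤ ((Finset.univ.sup J : ℕ) : ℝ) := by exact_mod_cast h5
          have hi : (0 : ℝ) ≤ J s := Nat.cast_nonneg _
          exact one_div_le_one_div_of_le (by linarith) (by linarith)
      refine (measure_mono h3).trans ((measure_union_le _ _).trans ?_)
      have h7 : volume (⋃ s : σ, Function.eval s ⁻¹' {z : ℂ | (z ^ 3).im = 0} :
          Set (σ → ℂ)) = 0 := by
        rw [measure_iUnion_null_iff]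
        intro s
        exact (Measure.quasiMeasurePreserving_eval (fun _ : σ => (volume : Measure ℂ)) s).preimage_null
          null_im
      rw [h7, add_zero]
  rw [← h2]
  exact h1

end Places

/-- VOD. -/
theorem vod (hCON : ConStmt) : VodStmt := by
  intro k _ _ hk Φ ε hε
  obtain ⟨hcard, -, hvF, -, -, hT⟩ := hCON k hk Φ
  obtain ⟨hvol, hfin, -, hbdd⟩ := hT 1 one_pos
  set A : Set (Sg k → ℝ) := Φ.F ∩ {x | ∏ s, x s ≤ 1} with hA
  have hposA : ∀ x ∈ interior A, ∀ s, 0 < x s := fun x hx s => Φ.pos x (interior_subset hx).1 s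
  have hmeas : MeasurableSet (interior A) := isOpen_interior.measurableSet
  have hint : volume (interior A) = volume A :=
    measure_congr (interior_ae_eq_of_null_frontier Φ.null)
  have hlim := tendsto_vol (interior A) hmeas hposA
  rw [hint] at hlim
  have hne : (NNReal.pi : ENNReal) ^ Fintype.card (Sg k) * volume A ≠ ⊤ :=
    ENNReal.mul_ne_top (ENNReal.pow_ne_top ENNReal.coe_ne_top) hfin
  have hlim2 := (ENNReal.tendsto_toReal hne).comp hlim
  have hval : ((NNReal.pi : ENNReal) ^ Fintype.card (Sg k) * volume A).toReal =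
      Real.pi ^ finrank ℚ k * Φ.vF := by
    rw [ENNReal.toReal_mul, ENNReal.toReal_pow, hcard]
    rfl
  rw [hval] at hlim2
  have hev := hlim2.eventually (lt_mem_nhds (show Real.pi ^ finrank ℚ k * Φ.vF - ε <
    Real.pi ^ finrank ℚ k * Φ.vF by linarith))
  obtain ⟨j, hj⟩ := hev.exists
  refine ⟨1 / ((j : ℝ) + 1), by positivity, ?_, ?_, hj.le⟩
  · have h1 : DD Φ (1 / ((j : ℝ) + 1)) = (fun (w : Sg k → ℂ) (s : Sg k) => ‖w s‖ ^ 2) ⁻¹' interior A ∩
        ⋂ s : Sg k, {w : Sg k → ℂ | 1 / ((j : ℝ) + 1) < |((w s) ^ 3).im|} := by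
      ext w
      simp only [DD, Set.mem_ofPred_eq, Set.mem_inter_iff, Set.mem_preimage, Set.mem_iInter, hA]
    rw [h1]
    apply IsOpen.inter
    · exact isOpen_interior.preimage (by fun_prop)
    · apply isOpen_iInter_of_finite
      intro s
      have hc : Continuous fun w : Sg k → ℂ => |((w s) ^ 3).im| :=
        (Complex.continuous_im.comp ((continuous_apply s).pow 3)).abs
      exact isOpen_lt continuous_const hc
  · obtain ⟨R, hR⟩ := isBounded_iff_forall_norm_le.1 hbdd
    rw [isBounded_iff_forall_norm_le]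
    refine ⟨|R| + 1, fun w hw => ?_⟩
    rw [pi_norm_le_iff_of_nonneg (by positivity)]
    intro s
    have h1 : (fun s => ‖w s‖ ^ 2) ∈ A := interior_subset hw.1
    have h2 := hR _ h1
    have h3 : ‖(fun s => ‖w s‖ ^ 2 : Sg k → ℝ) s‖ ≤ R := (norm_le_pi_norm _ s).trans h2
    have h4 : ‖w s‖ ^ 2 ≤ R := by
      have h5 : ‖(fun s => ‖w s‖ ^ 2 : Sg k → ℝ) s‖ = ‖w s‖ ^ 2 := by
        rw [Real.norm_of_nonneg (by positivity)]
      linarith
    have h6 : 0 ≤ ‖w s‖ := norm_nonneg _
    have h7 : R ≤ |R| := le_abs_self R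
    nlinarith [abs_nonneg R]

end Pool.Agent.LeoK.H41
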